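import Pool.Agent.L0h9.Gen.Jac
import Pool.Agent.H952R2.Sextic.Parts

/-! The incidence variety of sextic forms which vanish on a line, with an asymptotic tangent
direction of contact order three at a point of the line, dominates the space of all sextic forms
in at least six variables. -/

set_option autoImplicit false
set_option linter.unusedSectionVars false
set_option linter.unusedSimpArgs false

namespace Pool.Agent.L0h9.Six

open MvPolynomial Pool.Agent.H952R2.Sextic

variable {ι : Type} [Fintype ι] [DecidableEq ι] (e : Fin 6 ↪ ι)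

/-- The exponents of degree six. -/
def E6 (ι : Type) [Fintype ι] [DecidableEq ι] : Finset (ι →₀ ℕ) :=
  Finset.finsuppAntidiag Finset.univ 6

theorem mem_E6 (d : ι →₀ ℕ) : d ∈ E6 ι ↔ ∑ i, d i = 6 := by
  rw [E6, Finset.mem_finsuppAntidiag]
  exact ⟨fun h => h.1, fun h => ⟨h, Finset.subset_univ _⟩⟩

theorem mem_E6' (d : ι →₀ ℕ) : d ∈ E6 ι ↔ Finsupp.degree d = 6 := by
  rw [mem_E6, Finsupp.degree_eq_sum]

/-- Exponents of the first three variables. -/
noncomputable def ex (a b c : ℕ) : ι →₀ ℕ :=
  Finsupp.single (e 0) a + Finsupp.single (e 1) b + Finsupp.single (e 2) c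

theorem ex_degree (a b c : ℕ) : Finsupp.degree (ex e a b c) = a + b + c := by
  rw [ex, map_add, map_add, Finsupp.degree_single, Finsupp.degree_single, Finsupp.degree_single]

theorem ex_0 (a b c : ℕ) : ex e a b c (e 0) = a := by
  simp [ex, Finsupp.single_apply]

theorem ex_1 (a b c : ℕ) : ex e a b c (e 1) = b := by
  simp [ex, Finsupp.single_apply]

theorem ex_2 (a b c : ℕ) : ex e a b c (e 2) = c := by
  simp [ex, Finsupp.single_apply]

theorem ex_other (a b c : ℕ) (i : ι) (h0 : i ≠ e 0) (h1 : i ≠ e 1) (h2 : i ≠ e 2) :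
    ex e a b c i = 0 := by
  simp [ex, Finsupp.single_apply, h0.symm, h1.symm, h2.symm]

/-- The nine exponents whose coefficients are determined. -/
noncomputable def sp : Fin 9 → (ι →₀ ℕ) :=
  ![ex e 6 0 0, ex e 5 1 0, ex e 4 2 0, ex e 3 3 0, ex e 2 4 0, ex e 1 5 0, ex e 0 6 0,
    ex e 5 0 1, ex e 4 0 2]

theorem sp_mem (k : Fin 9) : sp e k ∈ E6 ι := by
  rw [mem_E6']
  fin_cases k <;> simp [sp, ex_degree]

/-- The nine exponents. -/
def Special (d : ι →₀ ℕ) : Prop := ∃ k, d = sp e k

theorem special_props {d : ι →₀ ℕ} (hd : Special e d) :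
    d (e 3) = 0 ∧ d (e 4) = 0 ∧ d (e 5) = 0 ∧ (d (e 1) = 0 ∨ d (e 2) = 0) := by
  obtain ⟨k, rfl⟩ := hd
  have h : ∀ a b c, ex e a b c (e 3) = 0 ∧ ex e a b c (e 4) = 0 ∧ ex e a b c (e 5) = 0 := by
    intro a b c
    refine ⟨?_, ?_, ?_⟩ <;> exact ex_other e a b c _ (by simp) (by simp) (by simp)
  fin_cases k <;> simp [sp, h, ex_1, ex_2]

section family

variable {A : Type*} [CommRing A]

open Classical in
/-- The part with the free coefficients. -/
noncomputable def gpart (u : E6 ι → A) : MvPolynomial ι A :=
  ∑ d : E6 ι, if Special e d.1 then 0 else monomial d.1 (u d)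

open Classical in
theorem coeff_gpart (u : E6 ι → A) (d : ι →₀ ℕ) :
    coeff d (gpart e u) = if h : d ∈ E6 ι then (if Special e d then 0 else u ⟨d, h⟩) else 0 := by
  rw [gpart, coeff_sum]
  split_ifs with h1 h2
  · refine Finset.sum_eq_zero fun e' _ => ?_
    split_ifs with h3
    · exact coeff_zero _
    · rw [coeff_monomial, if_neg]
      intro h4
      exact h3 (h4 ▸ h2)
  · rw [Finset.sum_eq_single ⟨d, h1⟩]
    · rw [if_neg h2, coeff_monomial, if_pos rfl]
    · intro e' _ he
      split_ifs with h3
      · exact coeff_zero _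
      · rw [coeff_monomial, if_neg]
        intro h4
        exact he (Subtype.ext h4)
    · exact fun h => (h (Finset.mem_univ _)).elim
  · refine Finset.sum_eq_zero fun e' _ => ?_
    split_ifs with h3
    · exact coeff_zero _
    · rw [coeff_monomial, if_neg]
      intro h4
      exact h1 (h4 ▸ e'.2)

/-- The linear substitution. -/
def th {R : Type*} [CommRing R] (c : Fin 9 → R) (x : ι → R) : ι → R := fun i =>
  x i + (if i = e 2 then c 1 * x (e 0) + c 2 * x (e 1)
    else if i = e 3 then c 0 * x (e 0) + c 7 * x (e 2)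
    else if i = e 4 then c 3 * x (e 0) + c 4 * x (e 1) + c 8 * x (e 2)
    else if i = e 5 then c 5 * x (e 0) + c 6 * x (e 1) else 0)

theorem map_th {R S : Type*} [CommRing R] [CommRing S] (f : R →+* S) (c : Fin 9 → R)
    (x : ι → R) (i : ι) : f (th e c x i) = th e (fun k => f (c k)) (fun i => f (x i)) i := by
  simp only [th]
  split_ifs <;> simp

theorem th_line {R : Type*} [CommRing R] (c : Fin 9 → R) (p b : ι → R) (i : ι) :
    th e (fun k => Polynomial.C (c k)) (fun j => Polynomial.C (p j) +
      Polynomial.C (b j) * Polynomial.X) i =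
      Polynomial.C (th e c p i) + Polynomial.C (th e c b i) * Polynomial.X := by
  simp only [th]
  split_ifs <;> simp only [map_add, map_mul, map_zero] <;> ring

/-- The general form of the incidence variety. -/
noncomputable def fam (u : E6 ι → A) : MvPolynomial ι A :=
  aeval (th e (fun k => (C (u ⟨sp e k, sp_mem e k⟩) : MvPolynomial ι A)) X) (gpart e u)

theorem map_gpart {B : Type*} [CommRing B] (f : A →+* B) (u : E6 ι → A) :
    map f (gpart e u) = gpart e (fun d => f (u d)) := by
  classical
  ext d
  rw [coeff_map, coeff_gpart, coeff_gpart]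
  split_ifs
  · exact map_zero f
  · rfl
  · exact map_zero f

theorem map_fam {B : Type*} [CommRing B] (f : A →+* B) (u : E6 ι → A) :
    map f (fam e u) = fam e (fun d => f (u d)) := by
  rw [fam, fam, ← map_gpart, aeval_def, aeval_def, hom_eval₂, eval₂_map]
  congr 1
  · ext a
    simp
  · funext i
    rw [map_th]
    congr 1
    · funext k
      simp
    · funext j
      simp

/-- Restriction of the general form to a line. -/
theorem lp_fam {R : Type*} [CommRing R] [Algebra A R] (u : E6 ι → A) (p b : ι → R) :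
    lp (fam e u) p b = lp (gpart e u)
      (th e (fun k => algebraMap A R (u ⟨sp e k, sp_mem e k⟩)) p)
      (th e (fun k => algebraMap A R (u ⟨sp e k, sp_mem e k⟩)) b) := by
  rw [Pool.Agent.H952R2.Sextic.lp, fam]
  have h := MvPolynomial.comp_aeval_apply
    (f := th e (fun k => (C (u ⟨sp e k, sp_mem e k⟩) : MvPolynomial ι A)) X)
    (aeval (fun j => Polynomial.C (p j) + Polynomial.C (b j) * Polynomial.X) :
      MvPolynomial ι A →ₐ[A] Polynomial R) (gpart e u)
  rw [h, Pool.Agent.H952R2.Sextic.lp]
  congr 2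
  funext i
  rw [← th_line]
  have h2 := map_th e ((aeval (fun j => Polynomial.C (p j) + Polynomial.C (b j) * Polynomial.X) :
      MvPolynomial ι A →ₐ[A] Polynomial R) : MvPolynomial ι A →+* Polynomial R)
      (fun k => (C (u ⟨sp e k, sp_mem e k⟩) : MvPolynomial ι A)) X i
  simp only [RingHom.coe_coe] at h2
  rw [h2]
  congr 1
  · funext k
    rw [← algebraMap_eq, AlgHom.commutes]
    rfl
  · funext j
    rw [aeval_X]

end family

end Pool.Agent.L0h9.Six
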