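import Pool.Agent.L0h9.Six.Line

/-! The incidence variety dominates the space of sextic forms. -/

set_option autoImplicit false
set_option linter.unusedSectionVars false
set_option linter.unusedSimpArgs false

namespace Pool.Agent.L0h9.Six

open MvPolynomial hiding map
open Pool.Agent.H952R2.Sextic
open TrivSqZeroExt hiding map

variable {ι : Type} [Fintype ι] [DecidableEq ι] (e : Fin 6 ↪ ι)

/-- Exponents of the first six variables. -/
noncomputable def mo (a : Fin 6 → ℕ) : ι →₀ ℕ := ∑ i, Finsupp.single (e i) (a i)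

theorem mo_apply (a : Fin 6 → ℕ) (j : Fin 6) : mo e a (e j) = a j := by
  rw [mo, Finsupp.finsetSum_apply, Finset.sum_eq_single j]
  · rw [Finsupp.single_eq_same]
  · intro i _ hi
    rw [Finsupp.single_apply, if_neg]
    exact fun h => hi (e.injective h)
  · exact fun h => (h (Finset.mem_univ _)).elim

theorem mo_degree (a : Fin 6 → ℕ) : Finsupp.degree (mo e a) = ∑ i, a i := by
  rw [mo, map_sum]
  refine Finset.sum_congr rfl fun i _ => ?_
  rw [Finsupp.degree_single]

theorem aeval_mo {R : Type*} [CommRing R] [Algebra ℚ R] (a : Fin 6 → ℕ) (y : ι → R) :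
    aeval y (monomial (mo e a) (1 : ℚ)) = ∏ i, y (e i) ^ a i := by
  rw [aeval_monomial, map_one, one_mul, mo,
    ← Finsupp.prod_finsetSum_index (fun i => pow_zero _) (fun i m n => pow_add _ _ _)]
  refine Finset.prod_congr rfl fun i _ => ?_
  rw [Finsupp.prod_single_index (h := fun i n => y i ^ n) (pow_zero _)]

/-- The special form. -/
noncomputable def G0 : MvPolynomial ι ℚ :=
  monomial (mo e ![4, 1, 1, 0, 0, 0]) 1 + monomial (mo e ![5, 0, 0, 1, 0, 0]) 1 +
  monomial (mo e ![2, 3, 0, 0, 1, 0]) 1 + monomial (mo e ![0, 5, 0, 0, 0, 1]) 1 +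
  monomial (mo e ![4, 0, 1, 0, 1, 0]) 1

theorem aeval_G0 {R : Type*} [CommRing R] [Algebra ℚ R] (y : ι → R) :
    aeval y (G0 e) = y (e 0) ^ 4 * y (e 1) * y (e 2) + y (e 0) ^ 5 * y (e 3) +
      y (e 0) ^ 2 * y (e 1) ^ 3 * y (e 4) + y (e 1) ^ 5 * y (e 5) +
      y (e 0) ^ 4 * y (e 2) * y (e 4) := by
  rw [G0]
  simp only [map_add, aeval_mo]
  simp [Fin.prod_univ_succ]
  ring

theorem G0_special {d : ι →₀ ℕ} (hd : Special e d) : coeff d (G0 e) = 0 := by
  obtain ⟨h3, h4, h5, h12⟩ := special_props e hd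
  have key : ∀ a : Fin 6 → ℕ, (a 3 ≠ 0 ∨ a 4 ≠ 0 ∨ a 5 ≠ 0 ∨ (a 1 ≠ 0 ∧ a 2 ≠ 0)) →
      coeff d (monomial (mo e a) (1 : ℚ)) = 0 := by
    intro a ha
    rw [coeff_monomial, if_neg]
    rintro rfl
    simp only [mo_apply] at h3 h4 h5 h12
    rcases ha with h | h | h | h
    · exact h h3
    · exact h h4
    · exact h h5
    · exact h12.elim h.1 h.2
  rw [G0]
  simp only [coeff_add]
  rw [key, key, key, key, key] <;> simp

theorem G0_homog {d : ι →₀ ℕ} (hd : d ∉ E6 ι) : coeff d (G0 e) = 0 := by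
  have key : ∀ a : Fin 6 → ℕ, ∑ i, a i = 6 → coeff d (monomial (mo e a) (1 : ℚ)) = 0 := by
    intro a ha
    rw [coeff_monomial, if_neg]
    rintro rfl
    apply hd
    rw [mem_E6', mo_degree, ha]
  rw [G0]
  simp only [coeff_add]
  rw [key, key, key, key, key] <;> simp [Fin.sum_univ_succ]

/-- The parameters of the special form. -/
noncomputable def u0 (d : E6 ι) : ℚ := coeff d.1 (G0 e)

theorem gpart_u0 : gpart e (u0 e) = G0 e := by
  classical
  ext d
  rw [coeff_gpart]
  split_ifs with h1 h2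
  · exact (G0_special e h2).symm
  · rfl
  · exact (G0_homog e h1).symm

theorem gpart_add {A : Type*} [CommRing A] (a b : E6 ι → A) :
    gpart e (fun d => a d + b d) = gpart e a + gpart e b := by
  classical
  ext d
  rw [coeff_add, coeff_gpart, coeff_gpart, coeff_gpart]
  split_ifs <;> simp

theorem gpart_mul {A : Type*} [CommRing A] (r : A) (a : E6 ι → A) :
    gpart e (fun d => r * a d) = C r * gpart e a := by
  classical
  ext d
  rw [coeff_C_mul, coeff_gpart, coeff_gpart]
  split_ifs <;> simp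

theorem gpart_homog {A : Type*} [CommRing A] (u : E6 ι → A) : (gpart e u).IsHomogeneous 6 := by
  classical
  intro d hd
  rw [coeff_gpart] at hd
  split_ifs at hd with h1 h2
  · exact absurd rfl hd
  · change (Finsupp.weight fun _ => 1) d = 6
    rw [← Finsupp.degree_eq_weight_one]
    exact (mem_E6' d).mp h1
  · exact absurd rfl hd

theorem th_homog {A : Type*} [CommRing A] (c : Fin 9 → A) (i : ι) :
    (th e (fun k => (C (c k) : MvPolynomial ι A)) X i).IsHomogeneous 1 := by
  have h : ∀ k j, (C (c k) * X j : MvPolynomial ι A).IsHomogeneous 1 := fun k j => by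
    simpa using (isHomogeneous_C ι (c k)).mul (isHomogeneous_X A j)
  rw [th]
  refine (isHomogeneous_X A i).add ?_
  split_ifs
  · exact (h _ _).add (h _ _)
  · exact (h _ _).add (h _ _)
  · exact ((h _ _).add (h _ _)).add (h _ _)
  · exact (h _ _).add (h _ _)
  · exact isHomogeneous_zero _ _ _

theorem fam_homog {A : Type*} [CommRing A] (u : E6 ι → A) : (fam e u).IsHomogeneous 6 := by
  rw [fam]
  have := (gpart_homog e u).aeval (th e (fun k => (C (u ⟨sp e k, sp_mem e k⟩) :
    MvPolynomial ι A)) X) (fun i => th_homog e (fun k => u ⟨sp e k, sp_mem e k⟩) i)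
  simpa using this

theorem th_zero {R : Type*} [CommRing R] (x : ι → R) : th e (fun _ => 0) x = x := by
  funext i
  simp [th]

theorem fam_zero {A : Type*} [CommRing A] (u : E6 ι → A)
    (hu : ∀ k, u ⟨sp e k, sp_mem e k⟩ = 0) : fam e u = gpart e u := by
  rw [fam]
  have : (fun k => (C (u ⟨sp e k, sp_mem e k⟩) : MvPolynomial ι A)) = fun _ => 0 := by
    funext k
    rw [hu, C_0]
  rw [this, th_zero, aeval_X_left_apply]

theorem u0_sp (k : Fin 9) : u0 e ⟨sp e k, sp_mem e k⟩ = 0 := G0_special e ⟨k, rfl⟩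

theorem lp_ringHom {A B : Type*} [CommRing A] [CommRing B] (f : A →+* B) (P : MvPolynomial ι A)
    (p b : ι → A) (k : ℕ) : f ((lp P p b).coeff k) =
      (lp (MvPolynomial.map f P) (fun i => f (p i)) (fun i => f (b i))).coeff k := by
  rw [← Polynomial.coeff_map]
  congr 1
  rw [Pool.Agent.H952R2.Sextic.lp, Pool.Agent.H952R2.Sextic.lp, aeval_def, aeval_def, eval₂_map,
    ← Polynomial.coe_mapRingHom, hom_eval₂]
  congr 1
  · ext a
    simp
  · funext i
    simp

theorem fst_th (c : Fin 9 → ℚ) (x : ι → ℚ) (i : ι) :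
    (fstHom ℚ ℚ ℚ : DualNumber ℚ →ₐ[ℚ] ℚ).toRingHom
      (th e (fun k => (inr (c k) : DualNumber ℚ)) (fun i => inl (x i)) i) = x i := by
  rw [map_th]
  have h1 : (fun k => (fstHom ℚ ℚ ℚ : DualNumber ℚ →ₐ[ℚ] ℚ).toRingHom
      (inr (c k) : DualNumber ℚ)) = fun _ => 0 := by
    funext k
    exact fst_inr ℚ (c k)
  have h2 : (fun i => (fstHom ℚ ℚ ℚ : DualNumber ℚ →ₐ[ℚ] ℚ).toRingHom
      (inl (x i) : DualNumber ℚ)) = x := by
    funext k
    exact fst_inl ℚ (x k)
  rw [h1, h2, th_zero]

/-- The coefficients of the restriction to a line over the dual numbers. -/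
theorem coeff_dual (v : E6 ι → ℚ) (c : Fin 9 → ℚ) (p b : ι → ℚ) (k : ℕ) :
    (lp (gpart e (fun d => (inl (u0 e d) + inr (v d) : DualNumber ℚ)))
      (th e (fun k => (inr (c k) : DualNumber ℚ)) (fun i => inl (p i)))
      (th e (fun k => (inr (c k) : DualNumber ℚ)) (fun i => inl (b i)))).coeff k =
    (lp (G0 e) (th e (fun k => (inr (c k) : DualNumber ℚ)) (fun i => inl (p i)))
      (th e (fun k => (inr (c k) : DualNumber ℚ)) (fun i => inl (b i)))).coeff k +
      inr ((lp (gpart e v) p b).coeff k) := by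
  have h1 : gpart e (fun d => (inl (u0 e d) + inr (v d) : DualNumber ℚ)) =
      MvPolynomial.map (algebraMap ℚ (DualNumber ℚ)) (G0 e) +
        C (inr 1) * MvPolynomial.map (algebraMap ℚ (DualNumber ℚ)) (gpart e v) := by
    rw [← gpart_u0, map_gpart, map_gpart, ← gpart_mul, ← gpart_add]
    congr 1
    funext d
    congr 1
    change inr (v d) = inr 1 * inl (v d)
    rw [inr_mul_inl]
    simp
  rw [h1, Pool.Agent.H952R2.Sextic.lp, map_add, map_mul, Polynomial.coeff_add]
  congr 1
  · rw [← Pool.Agent.H952R2.Sextic.lp, lp_map_algebraMap]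
  · rw [aeval_C]
    change (Polynomial.C (inr 1) * (lp (MvPolynomial.map (algebraMap ℚ (DualNumber ℚ)) (gpart e v))
      (th e (fun k => (inr (c k) : DualNumber ℚ)) (fun i => inl (p i)))
      (th e (fun k => (inr (c k) : DualNumber ℚ)) (fun i => inl (b i))))).coeff k = _
    rw [Polynomial.coeff_C_mul]
    set z := (lp (MvPolynomial.map (algebraMap ℚ (DualNumber ℚ)) (gpart e v))
      (th e (fun k => (inr (c k) : DualNumber ℚ)) (fun i => inl (p i)))
      (th e (fun k => (inr (c k) : DualNumber ℚ)) (fun i => inl (b i)))).coeff k with hz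
    have h2 : fst z = (lp (gpart e v) p b).coeff k := by
      have h3 := lp_ringHom (fstHom ℚ ℚ ℚ : DualNumber ℚ →ₐ[ℚ] ℚ).toRingHom
        (MvPolynomial.map (algebraMap ℚ (DualNumber ℚ)) (gpart e v))
        (th e (fun k => (inr (c k) : DualNumber ℚ)) (fun i => inl (p i)))
        (th e (fun k => (inr (c k) : DualNumber ℚ)) (fun i => inl (b i))) k
      rw [← hz] at h3
      have h4 : (fun i => (fstHom ℚ ℚ ℚ : DualNumber ℚ →ₐ[ℚ] ℚ).toRingHom
          (th e (fun k => (inr (c k) : DualNumber ℚ)) (fun i => inl (p i)) i)) = p := by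
        funext i
        exact fst_th e c p i
      have h5 : (fun i => (fstHom ℚ ℚ ℚ : DualNumber ℚ →ₐ[ℚ] ℚ).toRingHom
          (th e (fun k => (inr (c k) : DualNumber ℚ)) (fun i => inl (b i)) i)) = b := by
        funext i
        exact fst_th e c b i
      rw [h4, h5, MvPolynomial.map_map] at h3
      have h6 : (fstHom ℚ ℚ ℚ : DualNumber ℚ →ₐ[ℚ] ℚ).toRingHom.comp
          (algebraMap ℚ (DualNumber ℚ)) = RingHom.id ℚ := Subsingleton.elim _ _
      rw [h6, MvPolynomial.map_id] at h3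
      exact h3
    rw [← h2]
    apply TrivSqZeroExt.ext <;> simp

theorem th_vec {R : Type*} [CommRing R] (c : Fin 9 → R) (y : Fin 3 → R) :
    th e c (vec e y) (e 0) = y 0 ∧ th e c (vec e y) (e 1) = y 1 ∧
    th e c (vec e y) (e 2) = y 2 + (c 1 * y 0 + c 2 * y 1) ∧
    th e c (vec e y) (e 3) = c 0 * y 0 + c 7 * y 2 ∧
    th e c (vec e y) (e 4) = c 3 * y 0 + c 4 * y 1 + c 8 * y 2 ∧
    th e c (vec e y) (e 5) = c 5 * y 0 + c 6 * y 1 := by
  refine ⟨?_, ?_, ?_, ?_, ?_, ?_⟩ <;> simp [th, vec]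

/-- The restriction of the special form to the moved lines. -/
theorem lp_G0 (c : Fin 9 → ℚ) (y z : Fin 3 → ℚ) :
    lp (G0 e) (th e (fun k => (inr (c k) : DualNumber ℚ)) (fun i => inl (vec e y i)))
      (th e (fun k => (inr (c k) : DualNumber ℚ)) (fun i => inl (vec e z i))) =
    (fun (Y : Fin 6 → Polynomial (DualNumber ℚ)) =>
      Y 0 ^ 4 * Y 1 * Y 2 + Y 0 ^ 5 * Y 3 + Y 0 ^ 2 * Y 1 ^ 3 * Y 4 + Y 1 ^ 5 * Y 5 +
        Y 0 ^ 4 * Y 2 * Y 4)
    ![Polynomial.C (inl (y 0)) + Polynomial.C (inl (z 0)) * Polynomial.X,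
      Polynomial.C (inl (y 1)) + Polynomial.C (inl (z 1)) * Polynomial.X,
      Polynomial.C (inl (y 2) + (inr (c 1) * inl (y 0) + inr (c 2) * inl (y 1))) +
        Polynomial.C (inl (z 2) + (inr (c 1) * inl (z 0) + inr (c 2) * inl (z 1))) * Polynomial.X,
      Polynomial.C (inr (c 0) * inl (y 0) + inr (c 7) * inl (y 2)) +
        Polynomial.C (inr (c 0) * inl (z 0) + inr (c 7) * inl (z 2)) * Polynomial.X,
      Polynomial.C (inr (c 3) * inl (y 0) + inr (c 4) * inl (y 1) + inr (c 8) * inl (y 2)) +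
        Polynomial.C (inr (c 3) * inl (z 0) + inr (c 4) * inl (z 1) + inr (c 8) * inl (z 2)) *
          Polynomial.X,
      Polynomial.C (inr (c 5) * inl (y 0) + inr (c 6) * inl (y 1)) +
        Polynomial.C (inr (c 5) * inl (z 0) + inr (c 6) * inl (z 1)) * Polynomial.X] := by
  have hv : ∀ y : Fin 3 → ℚ, (fun i => (inl (vec e y i) : DualNumber ℚ)) =
      vec e (fun i => inl (y i)) := by
    intro y
    funext i
    simp only [vec]
    split_ifs <;> simp
  rw [hv, hv, Pool.Agent.H952R2.Sextic.lp, aeval_G0]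
  obtain ⟨a0, a1, a2, a3, a4, a5⟩ := th_vec e (fun k => (inr (c k) : DualNumber ℚ))
    (fun i => inl (y i))
  obtain ⟨b0, b1, b2, b3, b4, b5⟩ := th_vec e (fun k => (inr (c k) : DualNumber ℚ))
    (fun i => inl (z i))
  rw [a0, a1, a2, a3, a4, a5, b0, b1, b2, b3, b4, b5]
  rfl

theorem poly7 (a : Fin 7 → DualNumber ℚ) (h : Polynomial.C (a 0) + Polynomial.C (a 1) *
    Polynomial.X + Polynomial.C (a 2) * Polynomial.X ^ 2 + Polynomial.C (a 3) * Polynomial.X ^ 3 +
    Polynomial.C (a 4) * Polynomial.X ^ 4 + Polynomial.C (a 5) * Polynomial.X ^ 5 +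
    Polynomial.C (a 6) * Polynomial.X ^ 6 = 0) : ∀ i, a i = 0 := by
  have h2 : ∀ k, (Polynomial.C (a 0) + Polynomial.C (a 1) *
    Polynomial.X + Polynomial.C (a 2) * Polynomial.X ^ 2 + Polynomial.C (a 3) * Polynomial.X ^ 3 +
    Polynomial.C (a 4) * Polynomial.X ^ 4 + Polynomial.C (a 5) * Polynomial.X ^ 5 +
    Polynomial.C (a 6) * Polynomial.X ^ 6).coeff k = 0 := by
    intro k
    rw [h, Polynomial.coeff_zero]
  simp only [Polynomial.coeff_add, Polynomial.coeff_C_mul, Polynomial.coeff_X_pow,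
    Polynomial.coeff_C, Polynomial.coeff_X] at h2
  intro i
  have := h2 i
  fin_cases i <;> simpa using this

theorem inr_inr (a b : ℚ) : (Polynomial.C (inr a : DualNumber ℚ)) * Polynomial.C (inr b) = 0 := by
  rw [← Polynomial.C_mul, inr_mul_inr, Polynomial.C_0]

theorem line_one (c : Fin 9 → ℚ) :
    lp (G0 e) (th e (fun k => (inr (c k) : DualNumber ℚ)) (fun i => inl (vec e ![1, 0, 0] i)))
      (th e (fun k => (inr (c k) : DualNumber ℚ)) (fun i => inl (vec e ![0, 1, 0] i))) =
    Polynomial.C (inr (c 0)) + Polynomial.C (inr (c 1)) * Polynomial.X +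
      Polynomial.C (inr (c 2)) * Polynomial.X ^ 2 + Polynomial.C (inr (c 3)) * Polynomial.X ^ 3 +
      Polynomial.C (inr (c 4)) * Polynomial.X ^ 4 + Polynomial.C (inr (c 5)) * Polynomial.X ^ 5 +
      Polynomial.C (inr (c 6)) * Polynomial.X ^ 6 := by
  rw [lp_G0]
  have h1 := inr_inr (c 1) (c 3)
  have h2 := inr_inr (c 1) (c 4)
  have h3 := inr_inr (c 2) (c 3)
  have h4 := inr_inr (c 2) (c 4)
  simp only [Matrix.cons_val_zero, Matrix.cons_val_one, Matrix.cons_val, inl_zero, inl_one,
    mul_zero, mul_one, add_zero, zero_add, Polynomial.C_0, Polynomial.C_1, zero_mul, one_mul,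
    one_pow]
  linear_combination h1 + Polynomial.X * h2 + Polynomial.X * h3 + Polynomial.X ^ 2 * h4

theorem line_two (c : Fin 9 → ℚ) (hc : ∀ k, k ≠ 7 → k ≠ 8 → c k = 0) :
    lp (G0 e) (th e (fun k => (inr (c k) : DualNumber ℚ)) (fun i => inl (vec e ![1, 0, 0] i)))
      (th e (fun k => (inr (c k) : DualNumber ℚ)) (fun i => inl (vec e ![0, 0, 1] i))) =
    Polynomial.C 0 + Polynomial.C (inr (c 7)) * Polynomial.X +
      Polynomial.C (inr (c 8)) * Polynomial.X ^ 2 + Polynomial.C 0 * Polynomial.X ^ 3 +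
      Polynomial.C 0 * Polynomial.X ^ 4 + Polynomial.C 0 * Polynomial.X ^ 5 +
      Polynomial.C 0 * Polynomial.X ^ 6 := by
  rw [lp_G0, hc 0 (by decide) (by decide), hc 1 (by decide) (by decide),
    hc 2 (by decide) (by decide), hc 3 (by decide) (by decide), hc 4 (by decide) (by decide),
    hc 5 (by decide) (by decide), hc 6 (by decide) (by decide)]
  simp only [Matrix.cons_val_zero, Matrix.cons_val_one, Matrix.cons_val, inl_zero, inl_one,
    inr_zero, mul_zero, mul_one, add_zero, zero_add, Polynomial.C_0, Polynomial.C_1, zero_mul,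
    one_mul, one_pow]
  ring

/-- The differential of the parametrisation at the special form is injective. -/
theorem jac (v : E6 ι → ℚ)
    (h : fam e (fun d => (inl (u0 e d) + inr (v d) : DualNumber ℚ)) =
      MvPolynomial.map (algebraMap ℚ (DualNumber ℚ)) (gpart e (u0 e))) : v = 0 := by
  classical
  set c : Fin 9 → ℚ := fun k => v ⟨sp e k, sp_mem e k⟩ with hc
  set u : E6 ι → DualNumber ℚ := fun d => inl (u0 e d) + inr (v d) with hu
  have husp : (fun k => algebraMap (DualNumber ℚ) (DualNumber ℚ) (u ⟨sp e k, sp_mem e k⟩)) =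
      fun k => inr (c k) := by
    funext k
    rw [hu]
    change inl (u0 e ⟨sp e k, sp_mem e k⟩) + inr (c k) = _
    rw [u0_sp, inl_zero, zero_add]
  have main : ∀ (y z : Fin 3 → ℚ) (k : ℕ),
      (lp (gpart e (u0 e)) (vec e y) (vec e z)).coeff k = 0 →
      (lp (gpart e v) (vec e y) (vec e z)).coeff k = 0 →
      (lp (G0 e) (th e (fun k => (inr (c k) : DualNumber ℚ)) (fun i => inl (vec e y i)))
        (th e (fun k => (inr (c k) : DualNumber ℚ)) (fun i => inl (vec e z i)))).coeff k = 0 := by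
    intro y z k h1 h2
    have h3 := coeff_dual e v c (vec e y) (vec e z) k
    rw [h2, inr_zero, add_zero] at h3
    rw [← h3]
    have h4 := lp_fam e u (fun i => (inl (vec e y i) : DualNumber ℚ)) (fun i => inl (vec e z i))
    rw [husp, h] at h4
    rw [← h4]
    have h5 := lp_ringHom (algebraMap ℚ (DualNumber ℚ)) (gpart e (u0 e)) (vec e y) (vec e z) k
    rw [h1, map_zero] at h5
    exact h5.symm
  have h7 := poly7 ![inr (c 0), inr (c 1), inr (c 2), inr (c 3), inr (c 4), inr (c 5), inr (c 6)]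
    (by
      rw [← Polynomial.coeff_inj]
      funext k
      have h1 := main ![1, 0, 0] ![0, 1, 0] k (by rw [lp_zero, Polynomial.coeff_zero])
        (by rw [lp_zero, Polynomial.coeff_zero])
      rw [line_one] at h1
      exact h1)
  have inj : ∀ x : ℚ, (inr x : DualNumber ℚ) = 0 → x = 0 := fun x hx => by
    have := congrArg snd hx
    simpa using this
  have c0 : c 0 = 0 := inj _ (h7 0)
  have c1 : c 1 = 0 := inj _ (h7 1)
  have c2 : c 2 = 0 := inj _ (h7 2)
  have c3 : c 3 = 0 := inj _ (h7 3)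
  have c4 : c 4 = 0 := inj _ (h7 4)
  have c5 : c 5 = 0 := inj _ (h7 5)
  have c6 : c 6 = 0 := inj _ (h7 6)
  have hck : ∀ k, k ≠ 7 → k ≠ 8 → c k = 0 := by
    intro k h1 h2
    fin_cases k
    · exact c0
    · exact c1
    · exact c2
    · exact c3
    · exact c4
    · exact c5
    · exact c6
    · exact absurd rfl h1
    · exact absurd rfl h2
  have c7 : c 7 = 0 := by
    have h1 := main ![1, 0, 0] ![0, 0, 1] 1 (dir_one e _) (dir_one e _)
    rw [line_two e c hck] at h1
    simp only [Polynomial.coeff_add, Polynomial.coeff_C_mul, Polynomial.coeff_X_pow,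
      Polynomial.coeff_C, Polynomial.coeff_X] at h1
    apply inj
    simpa using h1
  have c8 : c 8 = 0 := by
    have h1 := main ![1, 0, 0] ![0, 0, 1] 2 (dir_two e _) (dir_two e _)
    rw [line_two e c hck] at h1
    simp only [Polynomial.coeff_add, Polynomial.coeff_C_mul, Polynomial.coeff_X_pow,
      Polynomial.coeff_C, Polynomial.coeff_X] at h1
    apply inj
    simpa using h1
  have hall : ∀ k, c k = 0 := by
    intro k
    by_cases h1 : k = 7
    · rw [h1, c7]
    by_cases h2 : k = 8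
    · rw [h2, c8]
    exact hck k h1 h2
  have h8 : fam e u = gpart e u := fam_zero e u (fun k => by
    have := congrFun husp k
    rw [hall k, inr_zero] at this
    exact this)
  funext d
  by_cases hd : Special e d.1
  · obtain ⟨k, hk⟩ := hd
    have h9 : d = ⟨sp e k, sp_mem e k⟩ := Subtype.ext hk
    rw [h9]
    exact hall k
  · rw [h8] at h
    have h9 := congrArg (coeff d.1) h
    rw [map_gpart, coeff_gpart, coeff_gpart, dif_pos d.2, if_neg hd, dif_pos d.2, if_neg hd] at h9
    have h10 := congrArg snd h9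
    rw [hu] at h10
    change snd (inl (u0 e d) + inr (v d) : DualNumber ℚ) = snd (inl (u0 e d) : DualNumber ℚ) at h10
    simpa using h10

/-- The components of the projection of the incidence variety. -/
noncomputable def proj (d : E6 ι) : MvPolynomial (E6 ι) ℚ :=
  coeff d.1 (fam e (X : E6 ι → MvPolynomial (E6 ι) ℚ))

theorem aeval_proj {A : Type*} [CommRing A] [Algebra ℚ A] (u : E6 ι → A) (d : E6 ι) :
    aeval u (proj e d) = coeff d.1 (fam e u) := by
  rw [proj]
  have h := map_fam e ((aeval u : MvPolynomial (E6 ι) ℚ →ₐ[ℚ] A) :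
    MvPolynomial (E6 ι) ℚ →+* A) X
  have h2 : (fun d : E6 ι => ((aeval u : MvPolynomial (E6 ι) ℚ →ₐ[ℚ] A) :
      MvPolynomial (E6 ι) ℚ →+* A) (X d)) = u := by
    funext d
    exact aeval_X _ _
  rw [h2] at h
  rw [← h, coeff_map]
  rfl

theorem fam_ext {A : Type*} [CommRing A] (u : E6 ι → A) (P : MvPolynomial ι A)
    (hP : P.IsHomogeneous 6) (h : ∀ d : E6 ι, coeff d.1 (fam e u) = coeff d.1 P) :
    fam e u = P := by
  ext d
  by_cases hd : d ∈ E6 ι
  · exact h ⟨d, hd⟩
  · have h1 : ∀ Q : MvPolynomial ι A, Q.IsHomogeneous 6 → coeff d Q = 0 := by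
      intro Q hQ
      by_contra hc
      apply hd
      rw [mem_E6']
      have h2 := hQ hc
      rw [← h2]
      change _ = (Finsupp.weight fun _ => 1) d
      rw [← Finsupp.degree_eq_weight_one]
    rw [h1 _ (fam_homog e u), h1 _ hP]

theorem independent : AlgebraicIndependent ℚ (proj e) := by
  classical
  apply Pool.Agent.L0h9.Gen.algebraicIndependent_of_det
  apply Pool.Agent.L0h9.Gen.det_ne_zero_of_dual _ (u0 e)
  intro v hv
  apply jac e v
  apply fam_ext
  · exact (gpart_homog e _).map _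
  · intro d
    have h1 := hv d
    rw [aeval_proj] at h1
    have h2 := aeval_proj e (u0 e) d
    rw [fam_zero e (u0 e) (u0_sp e), MvPolynomial.aeval_eq_eval] at h2
    have h3 : eval (u0 e) (proj e d) = coeff d.1 (gpart e (u0 e)) := h2
    rw [h1, coeff_map, h3]
    rfl

end Pool.Agent.L0h9.Six
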