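import Pool.Agent.L0h9.Six.Fam

/-! Restrictions of the general form to the coordinate lines. -/

set_option autoImplicit false
set_option linter.unusedSectionVars false
set_option linter.unusedSimpArgs false

namespace Pool.Agent.L0h9.Six

open MvPolynomial Pool.Agent.H952R2.Sextic

variable {ι : Type} [Fintype ι] [DecidableEq ι] (e : Fin 6 ↪ ι)

/-- Vectors in the span of the first three coordinate vectors. -/
def vec {R : Type*} [CommRing R] (y : Fin 3 → R) : ι → R := fun i =>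
  if i = e 0 then y 0 else if i = e 1 then y 1 else if i = e 2 then y 2 else 0

theorem vec_0 {R : Type*} [CommRing R] (y : Fin 3 → R) : vec e y (e 0) = y 0 := by
  simp [vec]

theorem vec_1 {R : Type*} [CommRing R] (y : Fin 3 → R) : vec e y (e 1) = y 1 := by
  simp [vec]

theorem vec_2 {R : Type*} [CommRing R] (y : Fin 3 → R) : vec e y (e 2) = y 2 := by
  simp [vec]

theorem vec_other {R : Type*} [CommRing R] (y : Fin 3 → R) (i : ι) (h0 : i ≠ e 0) (h1 : i ≠ e 1)
    (h2 : i ≠ e 2) : vec e y i = 0 := by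
  simp [vec, h0, h1, h2]

theorem eq_ex {d : ι →₀ ℕ} (h : ∀ i, i ≠ e 0 → i ≠ e 1 → i ≠ e 2 → d i = 0) :
    d = ex e (d (e 0)) (d (e 1)) (d (e 2)) := by
  ext i
  by_cases h0 : i = e 0
  · rw [h0, ex_0]
  by_cases h1 : i = e 1
  · rw [h1, ex_1]
  by_cases h2 : i = e 2
  · rw [h2, ex_2]
  rw [h i h0 h1 h2, ex_other e _ _ _ i h0 h1 h2]

/-- Products over the monomials. -/
theorem prod_ex {R : Type*} [CommRing R] (f : ι → R) (a b c : ℕ) :
    ∏ i, f i ^ (ex e a b c i) = f (e 0) ^ a * f (e 1) ^ b * f (e 2) ^ c := by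
  have h : ∏ i, f i ^ (ex e a b c i) = (ex e a b c).prod (fun i n => f i ^ n) := by
    rw [Finsupp.prod_fintype _ _ (fun i => pow_zero _)]
  rw [h, ex, Finsupp.prod_add_index' (fun i => pow_zero _) (fun i m n => pow_add _ _ _),
    Finsupp.prod_add_index' (fun i => pow_zero _) (fun i m n => pow_add _ _ _),
    Finsupp.prod_single_index (h := fun i n => f i ^ n) (pow_zero _),
    Finsupp.prod_single_index (h := fun i n => f i ^ n) (pow_zero _),
    Finsupp.prod_single_index (h := fun i n => f i ^ n) (pow_zero _)]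

open Classical in
theorem prod_line {R : Type*} [CommRing R] (y z : Fin 3 → R) (d : ι →₀ ℕ) :
    ∏ i, (Polynomial.C (vec e y i) + Polynomial.C (vec e z i) * Polynomial.X) ^ d i =
      if d = ex e (d (e 0)) (d (e 1)) (d (e 2)) then
        (Polynomial.C (y 0) + Polynomial.C (z 0) * Polynomial.X) ^ d (e 0) *
        (Polynomial.C (y 1) + Polynomial.C (z 1) * Polynomial.X) ^ d (e 1) *
        (Polynomial.C (y 2) + Polynomial.C (z 2) * Polynomial.X) ^ d (e 2) else 0 := by
  split_ifs with h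
  · have h2 := prod_ex e (fun i => Polynomial.C (vec e y i) + Polynomial.C (vec e z i) *
      Polynomial.X) (d (e 0)) (d (e 1)) (d (e 2))
    rw [← h] at h2
    rw [h2]
    simp only [vec_0, vec_1, vec_2]
  · have : ∃ i, i ≠ e 0 ∧ i ≠ e 1 ∧ i ≠ e 2 ∧ d i ≠ 0 := by
      by_contra hc
      push Not at hc
      exact h (eq_ex e hc)
    obtain ⟨i, h0, h1, h2, hi⟩ := this
    refine Finset.prod_eq_zero (Finset.mem_univ i) ?_
    rw [vec_other e y i h0 h1 h2, vec_other e z i h0 h1 h2]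
    simp [hi]

variable {A : Type*} [CommRing A] {R : Type*} [CommRing R] [Algebra A R]

open Classical in
theorem lp_gpart (u : E6 ι → A) (p b : ι → R) :
    lp (gpart e u) p b = ∑ d : E6 ι, if Special e d.1 then 0 else
      Polynomial.C (algebraMap A R (u d)) *
        ∏ i, (Polynomial.C (p i) + Polynomial.C (b i) * Polynomial.X) ^ d.1 i := by
  rw [Pool.Agent.H952R2.Sextic.lp, gpart, map_sum]
  refine Finset.sum_congr rfl fun d _ => ?_
  split_ifs
  · exact map_zero _
  · rw [aeval_monomial]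
    congr 1
    rw [Finsupp.prod_fintype _ _ (fun i => pow_zero _)]

theorem special_of {a b : ℕ} (h : a + b = 6) : Special e (ex e a b 0) := by
  have hb : b ≤ 6 := by omega
  have ha : a = 6 - b := by omega
  subst ha
  interval_cases b
  · exact ⟨0, rfl⟩
  · exact ⟨1, rfl⟩
  · exact ⟨2, rfl⟩
  · exact ⟨3, rfl⟩
  · exact ⟨4, rfl⟩
  · exact ⟨5, rfl⟩
  · exact ⟨6, rfl⟩

theorem sum_E6 {d : ι →₀ ℕ} (hd : d ∈ E6 ι) (h : d = ex e (d (e 0)) (d (e 1)) (d (e 2))) :
    d (e 0) + d (e 1) + d (e 2) = 6 := by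
  rw [mem_E6', h, ex_degree] at hd
  simpa [ex_0, ex_1, ex_2] using hd

/-- The general form vanishes on the line. -/
theorem lp_zero (u : E6 ι → A) :
    lp (gpart e u) (vec e ![1, 0, 0] : ι → R) (vec e ![0, 1, 0]) = 0 := by
  classical
  rw [lp_gpart]
  refine Finset.sum_eq_zero fun d _ => ?_
  split_ifs with h1
  · rfl
  rw [prod_line]
  split_ifs with h2
  · have h3 : d.1 (e 2) ≠ 0 := by
      intro h3
      apply h1
      have h4 := sum_E6 e d.2 h2
      rw [h2, h3]
      exact special_of e (by omega)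
    simp [h3]
  · rw [mul_zero]

open Classical in
theorem coeff_dir (u : E6 ι → A) (y1 y2 : R) (k : ℕ) :
    (lp (gpart e u) (vec e ![1, 0, 0] : ι → R) (vec e ![0, y1, y2])).coeff k =
      ∑ d : E6 ι, if ¬Special e d.1 ∧ d.1 = ex e (d.1 (e 0)) (d.1 (e 1)) (d.1 (e 2)) ∧
        k = d.1 (e 1) + d.1 (e 2) then
          algebraMap A R (u d) * (y1 ^ d.1 (e 1) * y2 ^ d.1 (e 2)) else 0 := by
  rw [lp_gpart, Polynomial.finsetSum_coeff]
  refine Finset.sum_congr rfl fun d _ => ?_
  by_cases h1 : Special e d.1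
  · simp [h1]
  rw [if_neg h1, prod_line]
  by_cases h2 : d.1 = ex e (d.1 (e 0)) (d.1 (e 1)) (d.1 (e 2))
  · rw [if_pos h2]
    have h3 : (Polynomial.C ((![1, 0, 0] : Fin 3 → R) 0) +
        Polynomial.C ((![0, y1, y2] : Fin 3 → R) 0) * Polynomial.X) ^ d.1 (e 0) *
        (Polynomial.C ((![1, 0, 0] : Fin 3 → R) 1) +
        Polynomial.C ((![0, y1, y2] : Fin 3 → R) 1) * Polynomial.X) ^ d.1 (e 1) *
        (Polynomial.C ((![1, 0, 0] : Fin 3 → R) 2) +
        Polynomial.C ((![0, y1, y2] : Fin 3 → R) 2) * Polynomial.X) ^ d.1 (e 2) =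
        Polynomial.C (y1 ^ d.1 (e 1) * y2 ^ d.1 (e 2)) *
          Polynomial.X ^ (d.1 (e 1) + d.1 (e 2)) := by
      have e1 : (![1, 0, 0] : Fin 3 → R) 0 = 1 := rfl
      have e2 : (![0, y1, y2] : Fin 3 → R) 0 = 0 := rfl
      have e3 : (![1, 0, 0] : Fin 3 → R) 1 = 0 := rfl
      have e4 : (![0, y1, y2] : Fin 3 → R) 1 = y1 := rfl
      have e5 : (![1, 0, 0] : Fin 3 → R) 2 = 0 := rfl
      have e6 : (![0, y1, y2] : Fin 3 → R) 2 = y2 := rfl
      rw [e1, e2, e3, e4, e5, e6, Polynomial.C_0, Polynomial.C_1, zero_mul, add_zero, one_pow,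
        one_mul, zero_add, zero_add, mul_pow, mul_pow, Polynomial.C_mul, Polynomial.C_pow,
        Polynomial.C_pow, pow_add]
      ring
    rw [h3, ← mul_assoc, ← Polynomial.C_mul, Polynomial.coeff_C_mul_X_pow]
    by_cases h4 : k = d.1 (e 1) + d.1 (e 2)
    · rw [if_pos h4, if_pos ⟨h1, h2, h4⟩]
    · rw [if_neg h4, if_neg (fun h => h4 h.2.2)]
  · rw [if_neg h2, mul_zero, Polynomial.coeff_zero, if_neg (fun h => h2 h.2.1)]

theorem ex_mem {a b c : ℕ} (h : a + b + c = 6) : ex e a b c ∈ E6 ι := by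
  rw [mem_E6', ex_degree, h]

theorem dir_one (u : E6 ι → A) :
    (lp (gpart e u) (vec e ![1, 0, 0] : ι → R) (vec e ![0, 0, 1])).coeff 1 = 0 := by
  classical
  rw [coeff_dir]
  refine Finset.sum_eq_zero fun d _ => ?_
  split_ifs with h
  · obtain ⟨h1, h2, h3⟩ := h
    by_cases h4 : d.1 (e 1) = 0
    · exfalso
      apply h1
      have h5 := sum_E6 e d.2 h2
      refine ⟨7, ?_⟩
      rw [h2]
      change _ = ex e 5 0 1
      congr 1 <;> omega
    · simp [h4]
  · rfl

theorem dir_two (u : E6 ι → A) :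
    (lp (gpart e u) (vec e ![1, 0, 0] : ι → R) (vec e ![0, 0, 1])).coeff 2 = 0 := by
  classical
  rw [coeff_dir]
  refine Finset.sum_eq_zero fun d _ => ?_
  split_ifs with h
  · obtain ⟨h1, h2, h3⟩ := h
    by_cases h4 : d.1 (e 1) = 0
    · exfalso
      apply h1
      have h5 := sum_E6 e d.2 h2
      refine ⟨8, ?_⟩
      rw [h2]
      change _ = ex e 4 0 2
      congr 1 <;> omega
    · simp [h4]
  · rfl

theorem not_special {a b c : ℕ} (h : ∀ k, ex e a b c ≠ sp e k) : ¬Special e (ex e a b c) := by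
  rintro ⟨k, hk⟩
  exact h k hk

theorem not_special_303 : ¬Special e (ex e 3 0 3) := by
  rintro ⟨k, hk⟩
  have h2 := DFunLike.congr_fun hk (e 2)
  rw [ex_2] at h2
  fin_cases k <;> simp [sp, ex_2] at h2

theorem not_special_411 : ¬Special e (ex e 4 1 1) := by
  intro h
  have := (special_props e h).2.2.2
  rw [ex_1, ex_2] at this
  omega

theorem dir_three (u : E6 ι → A) :
    (lp (gpart e u) (vec e ![1, 0, 0] : ι → R) (vec e ![0, 0, 1])).coeff 3 =
      algebraMap A R (u ⟨ex e 3 0 3, ex_mem e rfl⟩) := by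
  classical
  rw [coeff_dir, Finset.sum_eq_single ⟨ex e 3 0 3, ex_mem e rfl⟩]
  · rw [if_pos ⟨not_special_303 e, by rw [ex_0, ex_1, ex_2], by rw [ex_1, ex_2]⟩, ex_1, ex_2]
    simp
  · intro d _ hd
    split_ifs with h
    · obtain ⟨h1, h2, h3⟩ := h
      by_cases h4 : d.1 (e 1) = 0
      · exfalso
        apply hd
        have h5 := sum_E6 e d.2 h2
        apply Subtype.ext
        rw [h2]
        change _ = ex e 3 0 3
        congr 1 <;> omega
      · simp [h4]
    · rfl
  · exact fun h => (h (Finset.mem_univ _)).elim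

theorem dir_polar (u : E6 ι → A) :
    (lp (gpart e u) (vec e ![1, 0, 0] : ι → R) (vec e ![0, 1, 1])).coeff 2 =
      algebraMap A R (u ⟨ex e 4 1 1, ex_mem e rfl⟩) := by
  classical
  rw [coeff_dir, Finset.sum_eq_single ⟨ex e 4 1 1, ex_mem e rfl⟩]
  · rw [if_pos ⟨not_special_411 e, by rw [ex_0, ex_1, ex_2], by rw [ex_1, ex_2]⟩]
    simp
  · intro d _ hd
    split_ifs with h
    · obtain ⟨h1, h2, h3⟩ := h
      exfalso
      have h5 := sum_E6 e d.2 h2
      have h6 : (d.1 (e 1) = 2 ∧ d.1 (e 2) = 0) ∨ (d.1 (e 1) = 1 ∧ d.1 (e 2) = 1) ∨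
        (d.1 (e 1) = 0 ∧ d.1 (e 2) = 2) := by omega
      rcases h6 with h6 | h6 | h6
      · apply h1
        refine ⟨2, ?_⟩
        rw [h2]
        change _ = ex e 4 2 0
        congr 1 <;> omega
      · apply hd
        apply Subtype.ext
        rw [h2]
        change _ = ex e 4 1 1
        congr 1 <;> omega
      · apply h1
        refine ⟨8, ?_⟩
        rw [h2]
        change _ = ex e 4 0 2
        congr 1 <;> omega
    · rfl
  · exact fun h => (h (Finset.mem_univ _)).elim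

end Pool.Agent.L0h9.Six
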