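import Pool.Agent.L0h9.Six.Jac
import Pool.Agent.L0h9.Gen.Dom

/-! Existence of the line and of the tangent direction for the general sextic form in at least six
variables, and the density of the rational points on the double cover. -/

set_option autoImplicit false
set_option linter.unusedSectionVars false
set_option linter.unusedSimpArgs false

namespace Pool.Agent.L0h9.Six

open MvPolynomial Pool.Agent.H952R2.Sextic Pool.Agent.H952R2.SexticDefs

variable {ι : Type} [Fintype ι] [DecidableEq ι] (e : Fin 6 ↪ ι)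

/-- The preimage of `vec e y` under the linear substitution. -/
def inv {R : Type*} [CommRing R] (c : Fin 9 → R) (y : Fin 3 → R) : ι → R := fun i =>
  if i = e 0 then y 0 else if i = e 1 then y 1
  else if i = e 2 then y 2 - c 1 * y 0 - c 2 * y 1
  else if i = e 3 then -(c 0 * y 0 + c 7 * (y 2 - c 1 * y 0 - c 2 * y 1))
  else if i = e 4 then -(c 3 * y 0 + c 4 * y 1 + c 8 * (y 2 - c 1 * y 0 - c 2 * y 1))
  else if i = e 5 then -(c 5 * y 0 + c 6 * y 1) else 0

theorem th_inv {R : Type*} [CommRing R] (c : Fin 9 → R) (y : Fin 3 → R) :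
    th e c (inv e c y) = vec e y := by
  have ne : ∀ a b : Fin 6, a ≠ b → e a ≠ e b := fun a b h h2 => h (e.injective h2)
  have h0 : inv e c y (e 0) = y 0 := by simp [inv]
  have h1 : inv e c y (e 1) = y 1 := by simp [inv]
  have h2 : inv e c y (e 2) = y 2 - c 1 * y 0 - c 2 * y 1 := by simp [inv]
  funext i
  simp only [th, h0, h1, h2]
  by_cases i0 : i = e 0
  · subst i0
    simp [inv, vec]
  by_cases i1 : i = e 1
  · subst i1
    simp [inv, vec]
  by_cases i2 : i = e 2
  · subst i2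
    simp [inv, vec]
  by_cases i3 : i = e 3
  · subst i3
    simp [inv, vec]
  by_cases i4 : i = e 4
  · subst i4
    simp [inv, vec]
    ring
  by_cases i5 : i = e 5
  · subst i5
    simp [inv, vec]
  simp [inv, vec, i0, i1, i2, i3, i4, i5]

theorem inv_add {R : Type*} [CommRing R] (c : Fin 9 → R) (y z : Fin 3 → R) :
    (fun i => inv e c y i + inv e c z i) = inv e c (y + z) := by
  funext i
  simp only [inv, Pi.add_apply]
  split_ifs <;> ring

/-- The coefficients which must not vanish. -/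
noncomputable def good : MvPolynomial (E6 ι) ℚ :=
  X ⟨ex e 3 0 3, ex_mem e rfl⟩ * X ⟨ex e 4 1 1, ex_mem e rfl⟩

theorem good_ne : good e ≠ 0 := mul_ne_zero (X_ne_zero _) (X_ne_zero _)

/-- The line and the tangent direction. -/
theorem data {Ω : Type*} [Field Ω] [Algebra ℚ Ω] (u : E6 ι → Ω) (hu : aeval u (good e) ≠ 0) :
    ∃ p b D : ι → Ω, p (e 0) ≠ 0 ∧ b (e 0) = 0 ∧ b (e 1) ≠ 0 ∧ lp (fam e u) p b = 0 ∧
      (lp (fam e u) p D).coeff 1 = 0 ∧ (lp (fam e u) p D).coeff 2 = 0 ∧
      (lp (fam e u) p D).coeff 3 ≠ 0 ∧ (lp (fam e u) p (fun j => D j + b j)).coeff 2 ≠ 0 := by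
  rw [good, map_mul, aeval_X, aeval_X] at hu
  set c : Fin 9 → Ω := fun k => u ⟨sp e k, sp_mem e k⟩ with hc
  have key : ∀ y z : Fin 3 → Ω, lp (fam e u) (inv e c y) (inv e c z) =
      lp (gpart e u) (vec e y) (vec e z) := by
    intro y z
    rw [lp_fam]
    have h1 := th_inv e c y
    have h2 := th_inv e c z
    simp only [Algebra.algebraMap_self, RingHom.id_apply]
    rw [← hc, h1, h2]
  refine ⟨inv e c ![1, 0, 0], inv e c ![0, 1, 0], inv e c ![0, 0, 1], ?_, ?_, ?_, ?_, ?_, ?_, ?_,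
    ?_⟩
  · simp [inv]
  · simp [inv]
  · simp [inv]
  · rw [key, lp_zero]
  · rw [key, dir_one]
  · rw [key, dir_two]
  · rw [key, dir_three]
    exact left_ne_zero_of_mul hu
  · have h3 : (![0, 0, 1] + ![0, 1, 0] : Fin 3 → Ω) = ![0, 1, 1] := by
      funext i
      fin_cases i <;> simp
    rw [inv_add, key, h3, dir_polar]
    exact right_ne_zero_of_mul hu

theorem main (e : Fin 6 ↪ ι) : ∃ Φ : MvPolynomial (E6 ι) ℚ, Φ ≠ 0 ∧
    ∀ (k : Type) [Field k] [CharZero k] (F : MvPolynomial ι k), F.IsHomogeneous 6 →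
      aeval (fun d : E6 ι => coeff d.1 F) Φ ≠ 0 →
      ∃ p b D : ι → AlgebraicClosure k, p (e 0) ≠ 0 ∧ b (e 0) = 0 ∧ b (e 1) ≠ 0 ∧
        lp F p b = 0 ∧ (lp F p D).coeff 1 = 0 ∧ (lp F p D).coeff 2 = 0 ∧
        (lp F p D).coeff 3 ≠ 0 ∧ (lp F p (fun j => D j + b j)).coeff 2 ≠ 0 := by
  obtain ⟨Φ, hΦ, h⟩ := Pool.Agent.L0h9.Gen.exists_general (proj e) (independent e) (good e)
    (good_ne e)
  refine ⟨Φ, hΦ, ?_⟩
  intro k _ _ F hF hgen
  have h1 : aeval (fun d : E6 ι => algebraMap k (AlgebraicClosure k) (coeff d.1 F)) Φ ≠ 0 := by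
    have h2 := aeval_algebraMap_apply (A := k) (AlgebraicClosure k)
      (fun d : E6 ι => coeff d.1 F) Φ
    change aeval (algebraMap k (AlgebraicClosure k) ∘ fun d : E6 ι => coeff d.1 F) Φ ≠ 0
    rw [h2]
    intro h3
    exact hgen ((algebraMap k (AlgebraicClosure k)).injective (h3.trans (map_zero _).symm))
  obtain ⟨u, hu, hgood⟩ := h (Ω := AlgebraicClosure k) _ h1
  have hfam : fam e u = map (algebraMap k (AlgebraicClosure k)) F := by
    apply fam_ext e u _ (hF.map _)
    intro d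
    rw [← aeval_proj, hu d, coeff_map]
  obtain ⟨p, b, D, hd⟩ := data e u hgood
  rw [hfam] at hd
  simp only [lp_base] at hd
  exact ⟨p, b, D, hd⟩

end Pool.Agent.L0h9.Six
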